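import Pool.Agent.Helper56.NL.Stm
import Pool.Agent.Helper56.SA.Hr

/-! # The strong four exponentials statement from the rank inequality -/

set_option autoImplicit false

namespace Pool.Agent.Helper18.NL

open Pool.Agent.Helper56.NL
open Pool.Agent.Helper35.EM Pool.Agent.Helper56.SA Pool.Agent.Helper56.EM Module Submodule Set Matrix

theorem four : S_FOUR := by
  intro W D hD hr x y hx hy
  by_contra hcon
  push Not at hcon
  have hx' := LinearIndependent.pair_iff.1 (show LinearIndependent kk ![x 0, x 1] by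
    have e : ![x 0, x 1] = x := by ext i; fin_cases i <;> rfl
    rw [e]
    exact hx)
  have hy' := LinearIndependent.pair_iff.1 (show LinearIndependent kk ![y 0, y 1] by
    have e : ![y 0, y 1] = y := by ext i; fin_cases i <;> rfl
    rw [e]
    exact hy)
  have hx0 : x 0 ≠ 0 := hx.ne_zero 0
  have hy0 : y 0 ≠ 0 := hy.ne_zero 0
  have hb : x 0 * y 1 ∉ span kk {x 0 * y 0} := by
    intro h
    obtain ⟨c, hc⟩ := Submodule.mem_span_singleton.1 h
    rw [kk_smul] at hc
    have h1 : (c : ℂ) * y 0 = y 1 := by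
      apply mul_left_cancel₀ hx0
      rw [← hc]; ring
    have h2 := hy' c (-1) (by rw [kk_smul, kk_smul, h1]; push_cast; ring)
    exact absurd h2.2 (by norm_num)
  have hc : x 1 * y 0 ∉ span kk {x 0 * y 0} := by
    intro h
    obtain ⟨c, hc⟩ := Submodule.mem_span_singleton.1 h
    rw [kk_smul] at hc
    have h1 : (c : ℂ) * x 0 = x 1 := by
      apply mul_right_cancel₀ hy0
      rw [← hc]; ring
    have h2 := hx' c (-1) (by rw [kk_smul, kk_smul, h1]; push_cast; ring)
    exact absurd h2.2 (by norm_num)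
  obtain ⟨ψ, hψ⟩ := Module.exists_dual_forall_apply_ne_zero (K := kk)
    (v := (![(span kk {x 0 * y 0}).mkQ (x 0 * y 1), (span kk {x 0 * y 0}).mkQ (x 1 * y 0)] :
      Fin 2 → ℂ ⧸ span kk {x 0 * y 0}))
    (by
      intro i
      fin_cases i
      · change (span kk {x 0 * y 0}).mkQ (x 0 * y 1) ≠ 0
        rwa [Ne, Submodule.mkQ_apply, Submodule.Quotient.mk_eq_zero]
      · change (span kk {x 0 * y 0}).mkQ (x 1 * y 0) ≠ 0
        rwa [Ne, Submodule.mkQ_apply, Submodule.Quotient.mk_eq_zero])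
  obtain ⟨φ, hφ⟩ : ∃ φ : ℂ →ₗ[kk] kk, φ = ψ ∘ₗ (span kk {x 0 * y 0}).mkQ := ⟨_, rfl⟩
  have h0 : φ (x 0 * y 0) = 0 := by
    rw [hφ, LinearMap.comp_apply, Submodule.mkQ_apply,
      (Submodule.Quotient.mk_eq_zero _).2 (Submodule.mem_span_singleton_self _), map_zero]
  have h1 : φ (x 0 * y 1) ≠ 0 := by rw [hφ]; exact hψ 0
  have h2 : φ (x 1 * y 0) ≠ 0 := by rw [hφ]; exact hψ 1
  have h3 := hr 2 2 (vecMulVec x y) φ fun i j => hcon i j
  have h4 : (vecMulVec x y).rank ≤ 1 := rank_vecMulVec_le x y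
  have h5 : 2 ≤ ((vecMulVec x y).map fun z => (φ z : ℂ)).rank := by
    refine rank_ge_of_minor _ id id ?_
    rw [Matrix.submatrix_id_id, Matrix.det_fin_two]
    simp only [Matrix.map_apply, Matrix.vecMulVec_apply]
    rw [h0, ZeroMemClass.coe_zero, zero_mul, zero_sub, neg_ne_zero]
    refine mul_ne_zero ?_ ?_
    · exact fun h => h1 (Subtype.ext h)
    · exact fun h => h2 (Subtype.ext h)
  have h6 : ((vecMulVec x y).map fun z => (φ z : ℂ)).rank ≤ 2 := by
    have := Matrix.rank_le_width ((vecMulVec x y).map fun z => (φ z : ℂ))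
    exact this
  have h7 : ((vecMulVec x y).map fun z => (φ z : ℂ)).rank = 2 := le_antisymm h6 h5
  rw [h7] at h3
  nlinarith

end Pool.Agent.Helper18.NL
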