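import Pool.Agent.Helper56.NL.Stm
import Pool.Agent.Helper56.SA.Hr

/-! # The rank inequality -/

set_option autoImplicit false

namespace Pool.Agent.Helper18.NL

open Pool.Agent.Helper56.NL
open Pool.Agent.Helper35.EM Pool.Agent.Helper56.SA Pool.Agent.Helper56.EM Module Submodule Set Matrix

theorem g_pos (D n : ℕ) : 0 < g D n := by
  induction n with
  | zero => exact Nat.one_pos
  | succ n ih => exact Nat.mul_pos ih (by positivity)

theorem g_dvd (D a i : ℕ) : g D a ∣ g D (a + i) := by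
  induction i with
  | zero => exact dvd_rfl
  | succ i ih => exact ih.trans (Dvd.intro _ rfl)

theorem g_ratio (D a i : ℕ) :
    g D (a + (i + 1)) / g D a = (D + 1) ^ (a + 1) * (g D (a + 1 + i) / g D (a + 1)) := by
  obtain ⟨t, ht⟩ := g_dvd D (a + 1) i
  have h1 : a + (i + 1) = a + 1 + i := by ring
  rw [h1, ht, Nat.mul_div_cancel_left _ (g_pos D (a + 1))]
  have h2 : g D (a + 1) = g D a * (D + 1) ^ (a + 1) := rfl
  rw [h2, mul_assoc, Nat.mul_div_cancel_left _ (g_pos D a)]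

theorem exists_free {s : Set ℂ} (hs : s.Countable) : ∃ x : ℂ, x ∉ M.closure s := by
  by_contra h
  push Not at h
  have h1 : (Set.univ : Set ℂ).Countable := (countable_closure hs).mono fun x _ => h x
  exact not_countable_complex h1

/-- the inequality for all specialisations -/
theorem key (hD : S_DROP) {D : ℕ} (hD1 : 1 ≤ D) {d l : ℕ} (N : ℕ) : ∀ (a : ℕ) (s : Set ℂ)
    (_ : s.Countable) (y : ℂ) (_ : y ∉ M.closure s) (C : Matrix (Fin d) (Fin l) ℂ)
    (_ : ∀ i j, C i j ∈ M.closure s) (c : ℕ → Matrix (Fin d) (Fin l) ℂ)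
    (_ : ∀ k i j, c k i j ∈ kk) (v : ℕ → ℂ) (_ : ∀ k, v k ∈ kk),
    (1 - 1 / ((D : ℝ) * ((D : ℝ) + 1) ^ a)) * ((C + ∑ k : Fin (N + 1), v k • c k).rank : ℝ) ≤
      ((C + ∑ k : Fin (N + 1), y ^ (g D (a + k) / g D a) • c k).rank : ℝ) := by
  have hDr : (1 : ℝ) ≤ D := by exact_mod_cast hD1
  induction N with
  | zero =>
    intro a s hs y hy C hC c hc v hv
    have h1 := spec1 hy (v 0) C (c 0) hC fun i j => kk_le (hc 0 i j)
    have e : ∀ z : ℂ, (Matrix.of fun i j => C i j + c 0 i j * z) = C + z • c 0 := by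
      intro z
      ext i j
      simp only [Matrix.of_apply, Matrix.add_apply, Matrix.smul_apply, smul_eq_mul]
      ring
    rw [e, e] at h1
    rw [Fin.sum_univ_succ, Fin.sum_univ_succ]
    simp only [Finset.univ_eq_empty, Finset.sum_empty, add_zero, Fin.val_zero,
      Nat.div_self (g_pos D a), pow_one]
    have h2 : (1 - 1 / ((D : ℝ) * ((D : ℝ) + 1) ^ a)) ≤ 1 := by
      have : 0 ≤ 1 / ((D : ℝ) * ((D : ℝ) + 1) ^ a) := by positivity
      linarith
    calc (1 - 1 / ((D : ℝ) * ((D : ℝ) + 1) ^ a)) * ((C + v 0 • c 0).rank : ℝ) ≤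
        1 * ((C + v 0 • c 0).rank : ℝ) := mul_le_mul_of_nonneg_right h2 (Nat.cast_nonneg _)
      _ ≤ _ := by rw [one_mul]; exact_mod_cast h1
  | succ N ih =>
    intro a s hs y hy C hC c hc v hv
    obtain ⟨x, hx⟩ := exists_free (hs.insert y)
    have hC' : ∀ i j, (C + y • c 0) i j ∈ M.closure (insert y s) := by
      intro i j
      rw [Matrix.add_apply, Matrix.smul_apply, smul_eq_mul]
      exact cl_add (cl_mono (subset_insert y s) (hC i j))
        (cl_mul (M.mem_closure_of_mem' (mem_insert y s) (by trivial)) (kk_le (hc 0 i j)))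
    have h1 := ih (a + 1) (insert y s) (hs.insert y) x hx (C + y • c 0) hC' (fun k => c (k + 1))
      (fun k => hc (k + 1)) (fun k => v (k + 1)) (fun k => hv (k + 1))
    have h2 := hD s y x hy hx d l (N + 1) ((D + 1) ^ (a + 1)) C (c 0) (fun k => c (k + 1))
      (fun k => g D (a + 1 + k) / g D (a + 1)) hC (fun i j => kk_le (hc 0 i j))
      (fun k i j => kk_le (hc _ i j))
    have h3 := spec1 hy (v 0) (C + ∑ k : Fin (N + 1), v (k + 1) • c (k + 1)) (c 0) (by
      intro i j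
      rw [Matrix.add_apply, Matrix.sum_apply]
      refine cl_add (hC i j) (cl_sum _ _ fun k _ => ?_)
      rw [Matrix.smul_apply, smul_eq_mul]
      exact cl_mul (kk_le (hv _)) (kk_le (hc _ i j))) fun i j => kk_le (hc 0 i j)
    have e1 : ∀ z : ℂ, (Matrix.of fun i j => (C + ∑ k : Fin (N + 1), v (k + 1) • c (k + 1)) i j +
        c 0 i j * z) = C + z • c 0 + ∑ k : Fin (N + 1), v (k + 1) • c (k + 1) := by
      intro z
      ext i j
      simp only [Matrix.of_apply, Matrix.add_apply, Matrix.smul_apply, smul_eq_mul]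
      ring
    rw [e1, e1] at h3
    have e2 : C + ∑ k : Fin (N + 1 + 1), v k • c k =
        C + v 0 • c 0 + ∑ k : Fin (N + 1), v (k + 1) • c (k + 1) := by
      rw [Fin.sum_univ_succ, ← add_assoc]
      rfl
    have e3 : C + ∑ k : Fin (N + 1 + 1), y ^ (g D (a + k) / g D a) • c k =
        C + y • c 0 + ∑ k : Fin (N + 1), (y ^ ((D + 1) ^ (a + 1))) ^
          (g D (a + 1 + k) / g D (a + 1)) • c (k + 1) := by
      rw [Fin.sum_univ_succ, ← add_assoc]
      congr 1
      · rw [Fin.val_zero, add_zero, Nat.div_self (g_pos D a), pow_one]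
      · refine Finset.sum_congr rfl fun k _ => ?_
        rw [Fin.val_succ, g_ratio, pow_mul]
    rw [e2, e3]
    obtain ⟨R, hR⟩ : ∃ R : ℕ, R = (C + y • c 0 + ∑ k : Fin (N + 1),
      x ^ (g D (a + 1 + k) / g D (a + 1)) • c (k + 1)).rank := ⟨_, rfl⟩
    rw [← hR] at h1 h2
    obtain ⟨r, hr⟩ : ∃ r : ℕ, r = (C + y • c 0 + ∑ k : Fin (N + 1), (y ^ ((D + 1) ^ (a + 1))) ^
          (g D (a + 1 + k) / g D (a + 1)) • c (k + 1)).rank := ⟨_, rfl⟩
    rw [← hr] at h2 ⊢
    obtain ⟨r1, hr1⟩ : ∃ r : ℕ, r = (C + y • c 0 + ∑ k : Fin (N + 1), v (k + 1) • c (k + 1)).rank :=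
      ⟨_, rfl⟩
    rw [← hr1] at h1 h3
    obtain ⟨r2, hr2⟩ : ∃ r : ℕ, r = (C + v 0 • c 0 + ∑ k : Fin (N + 1), v (k + 1) • c (k + 1)).rank :=
      ⟨_, rfl⟩
    rw [← hr2] at h3 ⊢
    have h2' : (((D : ℝ) + 1) ^ (a + 1)) * R ≤ (((D : ℝ) + 1) ^ (a + 1)) * r + R := by
      exact_mod_cast h2
    have h3' : (r2 : ℝ) ≤ r1 := by exact_mod_cast h3
    have hR0 : (0 : ℝ) ≤ R := Nat.cast_nonneg _
    have hr0 : (0 : ℝ) ≤ r2 := Nat.cast_nonneg _
    obtain ⟨b, hb⟩ : ∃ b : ℝ, b = ((D : ℝ) + 1) ^ (a + 1) := ⟨_, rfl⟩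
    have hb1 : 1 ≤ b := by rw [hb]; exact one_le_pow₀ (by linarith)
    have hb0 : 0 < b := by linarith
    have hDb : (D : ℝ) * ((D : ℝ) + 1) ^ a = D * b / (D + 1) := by
      rw [hb, pow_succ]
      field_simp
    rw [← hb] at h1 h2'
    rw [hDb]
    have hD0 : (0 : ℝ) < D := by linarith
    -- (1 - 1/b) R ≤ r
    have h4 : (1 - 1 / b) * R ≤ r := by
      have h4' : ((R : ℝ) - r) * b ≤ R := by linarith
      have h4'' := (le_div_iff₀ hb0).2 h4'
      have e4 : (1 - 1 / b) * (R : ℝ) = R - R / b := by ring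
      rw [e4]
      linarith
    have h5 : (1 - 1 / (D * b)) * r2 ≤ R := by
      refine le_trans ?_ h1
      refine mul_le_mul_of_nonneg_left h3' ?_
      have : 1 / (D * b) ≤ 1 := by
        rw [div_le_one (by positivity)]
        nlinarith
      linarith
    have h6 : 0 ≤ 1 - 1 / b := by
      have : 1 / b ≤ 1 := by rw [div_le_one hb0]; exact hb1
      linarith
    have h7 : (1 - 1 / b) * ((1 - 1 / (D * b)) * r2) ≤ r := (mul_le_mul_of_nonneg_left h5 h6).trans h4
    refine le_trans ?_ h7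
    have h8 : (1 - 1 / b) * ((1 - 1 / (D * b)) * r2) - (1 - 1 / (D * b / (D + 1))) * r2 =
        1 / (D * b ^ 2) * r2 := by
      field_simp
      ring
    have h9 : 0 ≤ 1 / (D * b ^ 2) * r2 := by positivity
    linarith

theorem mem_form {D : ℕ} {p : ℂ} {z : ℂ}
    (hz : z ∈ span kk (insert 1 (range fun k => p ^ g D k))) :
    ∃ (N : ℕ) (c0 : kk) (c : ℕ → kk), (∀ k, N ≤ k → c k = 0) ∧
      z = (c0 : ℂ) + ∑ k ∈ Finset.range N, (c k : ℂ) * p ^ g D k := by
  obtain ⟨a, w, hw, rfl⟩ := Submodule.mem_span_insert.1 hz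
  obtain ⟨f, rfl⟩ := (Finsupp.mem_span_range_iff_exists_finsupp).1 hw
  obtain ⟨N, hN⟩ := f.support.bddAbove
  refine ⟨N + 1, a, f, fun k hk => ?_, ?_⟩
  · by_contra h
    have := hN (Finsupp.mem_support_iff.2 h)
    omega
  · rw [kk_smul, mul_one]
    congr 1
    have h1 : (f.sum fun i a => a • p ^ g D i) = ∑ k ∈ Finset.range (N + 1), f k • p ^ g D k :=
      Finsupp.sum_of_support_subset f (s := Finset.range (N + 1)) (fun k hk => by
        rw [Finset.mem_range]
        have := hN hk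
        omega) (fun i a => a • p ^ g D i) fun k _ => zero_smul kk _
    rw [h1]
    exact Finset.sum_congr rfl fun k _ => kk_smul _ _

theorem rank (hD : S_DROP) : S_RANK := by
  intro D hD1 p hp d l A φ hA
  choose N0 c0 c hc hAc using fun i j => mem_form (hA i j)
  obtain ⟨N, hN⟩ : ∃ N : ℕ, ∀ i j, N0 i j ≤ N + 1 := by
    refine ⟨∑ i, ∑ j, N0 i j, fun i j => ?_⟩
    have h1 := Finset.single_le_sum (f := fun j => N0 i j) (fun _ _ => Nat.zero_le _) (Finset.mem_univ j)
    have h2 := Finset.single_le_sum (f := fun i => ∑ j, N0 i j) (fun _ _ => Nat.zero_le _) (Finset.mem_univ i)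
    exact (h1.trans h2).trans (Nat.le_succ _)
  obtain ⟨C, hC⟩ : ∃ C : Matrix (Fin d) (Fin l) ℂ, C = Matrix.of fun i j => (c0 i j : ℂ) := ⟨_, rfl⟩
  obtain ⟨cc, hcc⟩ : ∃ cc : ℕ → Matrix (Fin d) (Fin l) ℂ, cc = fun k => Matrix.of fun i j => (c i j k : ℂ) :=
    ⟨_, rfl⟩
  have hccv : ∀ k i j, cc k i j = (c i j k : ℂ) := fun k i j => by rw [hcc]; rfl
  have hsum : ∀ i j, A i j = (c0 i j : ℂ) + ∑ k ∈ Finset.range (N + 1), (c i j k : ℂ) * p ^ g D k := by
    intro i j
    rw [hAc i j]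
    congr 1
    refine Finset.sum_subset (fun k hk => ?_) fun k _ hk => ?_
    · rw [Finset.mem_range] at hk ⊢
      exact hk.trans_le (hN i j)
    · rw [Finset.mem_range, not_lt] at hk
      rw [hc i j k hk]
      simp
  have hA1 : A = C + ∑ k : Fin (N + 1), p ^ (g D (0 + k) / g D 0) • cc k := by
    ext i j
    rw [hsum, Matrix.add_apply, Matrix.sum_apply, hC, Matrix.of_apply, Finset.sum_range]
    congr 1
    refine Finset.sum_congr rfl fun k _ => ?_
    rw [Matrix.smul_apply, hccv, smul_eq_mul, zero_add, mul_comm]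
    congr 2
    exact (Nat.div_one _).symm
  have hφA : ∀ i j, (φ (A i j) : ℂ) = (c0 i j : ℂ) * φ 1 +
      ∑ k : Fin (N + 1), (c i j k : ℂ) * φ (p ^ g D k) := by
    intro i j
    rw [hsum, phi_add, phi_kk, map_sum, Finset.sum_range]
    congr 1
    push_cast
    refine Finset.sum_congr rfl fun k _ => ?_
    rw [phi_mul]
  -- it is enough to dominate the rank by a specialisation
  have main : ∀ v : ℕ → ℂ, (∀ k, v k ∈ kk) →
      (A.map fun z => (φ z : ℂ)).rank ≤ (C + ∑ k : Fin (N + 1), v k • cc k).rank →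
      D * (A.map fun z => (φ z : ℂ)).rank ≤ D * A.rank + (A.map fun z => (φ z : ℂ)).rank := by
    intro v hv hle
    have h1 := key hD hD1 N 0 ∅ countable_empty p hp C (fun i j => by
      rw [hC]; exact kk_le (c0 i j).2) cc (fun k i j => by rw [hcc]; exact (c i j k).2) v hv
    rw [← hA1] at h1
    have hDr : (1 : ℝ) ≤ D := by exact_mod_cast hD1
    have hD0 : (0 : ℝ) < D := by linarith
    rw [pow_zero, mul_one] at h1
    have h2 : (((A.map fun z => (φ z : ℂ)).rank : ℕ) : ℝ) ≤ ((C + ∑ k : Fin (N + 1), v k • cc k).rank : ℝ) := by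
      exact_mod_cast hle
    have h3 : 0 ≤ 1 - 1 / (D : ℝ) := by
      have : 1 / (D : ℝ) ≤ 1 := by rw [div_le_one hD0]; exact hDr
      linarith
    have h4 := (mul_le_mul_of_nonneg_left h2 h3).trans h1
    have h5 : (D : ℝ) * ((A.map fun z => (φ z : ℂ)).rank : ℝ) ≤ D * A.rank +
        ((A.map fun z => (φ z : ℂ)).rank : ℝ) := by
      have h6 := mul_le_mul_of_nonneg_left h4 hD0.le
      have e : (D : ℝ) * ((1 - 1 / (D : ℝ)) * ((A.map fun z => (φ z : ℂ)).rank : ℝ)) =
          D * ((A.map fun z => (φ z : ℂ)).rank : ℝ) - ((A.map fun z => (φ z : ℂ)).rank : ℝ) := by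
        field_simp
      rw [e] at h6
      linarith
    exact_mod_cast h5
  by_cases hφ1 : φ 1 = 0
  · -- homogeneous case
    obtain ⟨S, hS⟩ : ∃ S : Matrix (Fin d) (Fin l) ℂ, S = A.map fun z => (φ z : ℂ) := ⟨_, rfl⟩
    obtain ⟨f, g', hm⟩ := exists_minor S rfl
    have hS1 : S = ∑ k : Fin (N + 1), (φ (p ^ g D k) : ℂ) • cc k := by
      ext i j
      rw [hS, Matrix.map_apply, hφA, hφ1, Matrix.sum_apply]
      rw [ZeroMemClass.coe_zero, mul_zero, zero_add]
      refine Finset.sum_congr rfl fun k _ => ?_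
      rw [Matrix.smul_apply, hccv, smul_eq_mul, mul_comm]
    obtain ⟨Q, hQ⟩ : ∃ Q : Polynomial ℂ, Q = ((Polynomial.X : Polynomial ℂ) • (S.submatrix f g').map Polynomial.C +
      (C.submatrix f g').map Polynomial.C).det := ⟨_, rfl⟩
    have hQ0 : Q ≠ 0 := by
      intro h0
      have h1 := Polynomial.coeff_det_X_add_C_card (S.submatrix f g') (C.submatrix f g')
      rw [← hQ, h0, Polynomial.coeff_zero] at h1
      exact hm h1.symm
    obtain ⟨t, ht⟩ : ∃ t : kk, Polynomial.eval (t : ℂ) Q ≠ 0 := by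
      by_contra hcon
      push Not at hcon
      apply hQ0
      apply Polynomial.eq_zero_of_infinite_isRoot
      refine Set.Infinite.mono (s := range fun t : kk => (t : ℂ)) ?_ ?_
      · rintro _ ⟨t, rfl⟩; exact hcon t
      · exact Set.infinite_range_of_injective Subtype.val_injective
    refine main (fun k => (t : ℂ) * φ (p ^ g D k)) (fun k => mul_mem t.2 (φ _).2) ?_
    have e1 : C + ∑ k : Fin (N + 1), ((t : ℂ) * φ (p ^ g D k)) • cc k = C + (t : ℂ) • S := by
      rw [hS1, Finset.smul_sum]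
      congr 1
      refine Finset.sum_congr rfl fun k _ => ?_
      rw [mul_smul]
    rw [e1]
    have e2 : Polynomial.eval (t : ℂ) Q = ((C + (t : ℂ) • S).submatrix f g').det := by
      rw [hQ, ← Polynomial.coe_evalRingHom, RingHom.map_det]
      congr 1
      ext i j
      simp [add_comm]
      exact mul_comm _ _
    rw [e2] at ht
    have h9 := rank_ge_of_minor _ f g' ht
    rw [← hS]
    exact h9
  · refine main (fun k => ((φ (p ^ g D k) / φ 1 : kk) : ℂ)) (fun k => (φ (p ^ g D k) / φ 1 : kk).2) ?_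
    have e1 : (A.map fun z => (φ z : ℂ)) = (φ 1 : ℂ) •
        (C + ∑ k : Fin (N + 1), ((φ (p ^ g D k) / φ 1 : kk) : ℂ) • cc k) := by
      ext i j
      rw [Matrix.map_apply, hφA, Matrix.smul_apply, Matrix.add_apply, Matrix.sum_apply, smul_eq_mul,
        mul_add, hC, Matrix.of_apply, mul_comm, Finset.mul_sum]
      congr 1
      refine Finset.sum_congr rfl fun k _ => ?_
      rw [Matrix.smul_apply, hccv, smul_eq_mul]
      have h1 : (φ 1 : ℂ) * ((φ (p ^ g D k) / φ 1 : kk) : ℂ) = φ (p ^ g D k) := by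
        have : φ 1 * (φ (p ^ g D k) / φ 1) = φ (p ^ g D k) := by field_simp
        exact_mod_cast congrArg (fun z : kk => (z : ℂ)) this
      rw [← mul_assoc, h1, mul_comm]
    rw [e1]
    exact rank_smul_le _ _

end Pool.Agent.Helper18.NL
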